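import Pool.Agent.W601.SQ.Stm

/-!
# Countable subgroups are closed
-/

set_option autoImplicit false

open scoped Classical Cardinal
open Filter Topology

namespace Pool.Agent.W692.SQ

open Pool.Agent.W601.SQ

theorem clo : S_ALG → S_INJ → S_CLO := by
  intro hA hI θ hθ K hK
  obtain ⟨-, cone, -, -, -, gmadd, memGG, -⟩ := hA
  obtain ⟨hinj, -⟩ := hI θ hθ
  obtain ⟨-, hpre, -⟩ := hθ
  -- the homomorphism `gm θ`
  let f : (ℝ →₀ ℤ) →+ Additive (ℝ → Circle) :=
    AddMonoidHom.mk' (fun m => Additive.ofMul (gm θ m)) (fun a b => by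
      rw [gmadd]; rfl)
  set K' : Subgroup (ℝ → Circle) := K.map (GG θ).subtype with hK'
  have hK'c : (K' : Set (ℝ → Circle)).Countable := by
    rw [hK', Subgroup.coe_map]
    exact hK.image _
  let M : AddSubgroup (ℝ →₀ ℤ) := (Subgroup.toAddSubgroup K').comap f
  have hM : ∀ m, m ∈ M ↔ gm θ m ∈ K' := fun m => Iff.rfl
  have hMc : (M : Set (ℝ →₀ ℤ)).Countable := by
    have : (M : Set (ℝ →₀ ℤ)) = gm θ ⁻¹' (K' : Set (ℝ → Circle)) := rfl
    rw [this]
    exact hK'c.preimage_of_injOn hinj.injOn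
  have key : ∀ g : ↥(GG θ), g ∉ K → ∃ β : ℝ, (∀ k : ↥(GG θ), k ∈ K → (k : ℝ → Circle) β = 1) ∧
      (g : ℝ → Circle) β ≠ 1 := by
    intro g hg
    obtain ⟨m0, hm0⟩ := (memGG θ g).1 g.2
    have hm0M : m0 ∉ M := by
      rw [hM, hm0]
      rintro ⟨k, hk, hkg⟩
      apply hg
      have : k = g := Subtype.ext hkg
      rw [← this]; exact hk
    have hne : (QuotientAddGroup.mk m0 : (ℝ →₀ ℤ) ⧸ M) ≠ 0 := by
      rw [Ne, QuotientAddGroup.eq_zero_iff]
      exact hm0M
    obtain ⟨c, hc⟩ := CharacterModule.exists_character_apply_ne_zero_of_ne_zero hne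
    let c' : (ℝ →₀ ℤ) →+ AddCircle (1 : ℚ) :=
      (c : ((ℝ →₀ ℤ) ⧸ M) →+ AddCircle (1 : ℚ)).comp (QuotientAddGroup.mk' M)
    have hc'M : ∀ m ∈ M, c' m = 0 := by
      intro m hm
      have : (QuotientAddGroup.mk' M) m = 0 := (QuotientAddGroup.eq_zero_iff m).2 hm
      change c ((QuotientAddGroup.mk' M) m) = 0
      rw [this, map_zero]
    have hc'0 : c' m0 ≠ 0 := hc
    have hr : ∀ α : ℝ, ∃ r : ℚ, (r : AddCircle (1 : ℚ)) = c' (Finsupp.single α 1) :=
      fun α => QuotientAddGroup.mk_surjective _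
    choose r hr using hr
    let L : (ℝ →₀ ℤ) →+ ℚ := Finsupp.liftAddHom (fun α => zmultiplesHom ℚ (r α))
    have hL : ∀ m, ((L m : ℚ) : AddCircle (1 : ℚ)) = c' m := by
      have h1 : (QuotientAddGroup.mk' (AddSubgroup.zmultiples (1 : ℚ))).comp L = c' := by
        ext α
        simp only [AddMonoidHom.coe_comp, Function.comp_apply, Finsupp.singleAddHom_apply]
        have h2 : L (Finsupp.single α 1) = r α := by
          simp only [L, Finsupp.liftAddHom_apply_single, zmultiplesHom_apply, one_smul]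
        rw [h2]
        exact hr α
      intro m
      exact DFunLike.congr_fun h1 m
    have hLs : ∀ m : ℝ →₀ ℤ, L m = m.sum (fun α a => (a : ℚ) * r α) := by
      intro m
      simp only [L, Finsupp.liftAddHom_apply]
      unfold Finsupp.sum
      refine Finset.sum_congr rfl fun α _ => ?_
      change (m α) • r α = ((m α : ℤ) : ℚ) * r α
      rw [zsmul_eq_mul]
    set A : Set ℝ := (⋃ m ∈ (M : Set (ℝ →₀ ℤ)), (m.support : Set ℝ)) ∪ (m0.support : Set ℝ) with hAdef
    have hAc : A.Countable := by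
      rw [hAdef]
      exact (hMc.biUnion fun m _ => m.support.countable_toSet).union m0.support.countable_toSet
    obtain ⟨β, hβ⟩ := hpre A (fun α => (r α : ℝ)) hAc
    have hip : ∀ m : ℝ →₀ ℤ, (∀ α ∈ m.support, α ∈ A) → ip m (fun α => θ α β) = ((L m : ℚ) : ℝ) := by
      intro m hm
      rw [hLs]
      unfold ip Finsupp.sum
      push_cast
      refine Finset.sum_congr rfl fun α hα => ?_
      rw [hβ α (hm α hα)]
    refine ⟨β, ?_, ?_⟩
    · intro k hk
      obtain ⟨m, hm⟩ := (memGG θ k).1 k.2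
      have hmM : m ∈ M := by
        rw [hM, hm]
        exact ⟨k, hk, rfl⟩
      have h1 : ((L m : ℚ) : AddCircle (1 : ℚ)) = 0 := by rw [hL, hc'M m hmM]
      obtain ⟨n, hn⟩ := AddCircle.coe_eq_zero_iff (1 : ℚ) |>.1 h1
      rw [← hm]
      change cx (ip m (fun α => θ α β)) = 1
      rw [cone, hip m fun α hα => Or.inl (Set.mem_biUnion hmM hα)]
      refine ⟨n, ?_⟩
      rw [← hn]
      simp
    · rw [← hm0]
      change cx (ip m0 (fun α => θ α β)) ≠ 1
      rw [Ne, cone, hip m0 fun α hα => Or.inr hα]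
      rintro ⟨n, hn⟩
      apply hc'0
      rw [← hL]
      have h1 : L m0 = (n : ℚ) := by exact_mod_cast hn
      rw [h1]
      exact (AddCircle.coe_eq_zero_iff (1 : ℚ)).2 ⟨n, by simp⟩
  -- conclusion
  rw [← closure_subset_iff_isClosed]
  intro g hg
  by_contra hcon
  obtain ⟨β, h1, h2⟩ := key g hcon
  have hcl : IsClosed {x : ↥(GG θ) | (x : ℝ → Circle) β = 1} :=
    isClosed_eq ((continuous_apply β).comp continuous_subtype_val) continuous_const
  exact h2 (closure_minimal (fun k hk => h1 k hk) hcl hg)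

end Pool.Agent.W692.SQ
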